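import Mathlib
import Pool.Agent.Run7.h755.Pcon

namespace Pool.Agent.Results.MP_53afc0_co.ChromaticBound

lemma main (K : ℕ) (hK : 1 ≤ K) (Δ : ℕ) (hΔ : 2 ≤ Δ) (k : ℕ) (hk : 1 ≤ k)
    (F : (r : ℕ) → SimpleGraph (Fin r)) (hF : ∀ r v, ((F r).neighborSet v).ncard ≤ Δ)
    (hcol : ∀ r, ∃ col : Fin r → Fin k, ∀ x y, (F r).Adj x y → col x ≠ col y)
    (N : ℕ) (χ : Sym2 (Fin N) → Fin K) :
    ∃ P : Finpartition (Finset.univ : Finset (Fin N)),
      P.parts.card ≤ Run7.h755.ptot K Δ k ∧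
        ∀ S ∈ P.parts, ∃ (j : Fin K) (φ : Fin S.card → Fin N),
          Function.Injective φ ∧ Set.range φ = ↑S ∧
            ∀ a b, (F S.card).Adj a b → χ s(φ a, φ b) = j := by
  classical
  let G : Fin K → SimpleGraph (Fin N) := fun j => SimpleGraph.fromRel (fun x y => χ s(x, y) = j)
  have hG : ∀ c x y, (G c).Adj x y → χ s(x, y) = c := by
    intro c x y h
    rw [SimpleGraph.fromRel_adj] at h
    rcases h.2 with h | h
    · exact h
    · rw [Sym2.eq_swap]; exact h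
  have hcov : ∀ x y, x ≠ y → ∃ c, (G c).Adj x y := by
    intro x y h
    refine ⟨χ s(x, y), ?_⟩
    rw [SimpleGraph.fromRel_adj]
    exact ⟨h, Or.inl rfl⟩
  have hFam : ∀ r, ∀ x : Fin r, (Finset.univ.filter (fun z => (F r).Adj x z)).card ≤ Δ := by
    intro r x
    have h1 := hF r x
    have h2 : (F r).neighborSet x = ↑(Finset.univ.filter (fun z => (F r).Adj x z)) := by
      ext z; simp
    rwa [h2, Set.ncard_coe_finset] at h1
  obtain ⟨PP, h1, h2, h3, h4⟩ := Run7.h755.ptotal_parts (Fam := F) (G := G) (by omega) hcov Δ k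
    (by omega) hk (fun r x => hFam r x) hcol
  refine ⟨⟨PP, ?_, ?_, ?_⟩, ?_, ?_⟩
  · rw [Finset.supIndep_iff_pairwiseDisjoint]
    intro S hS T hT hST
    exact h3 S hS T hT hST
  · refine Finset.eq_univ_iff_forall.mpr fun v => ?_
    obtain ⟨S, hS, hvS⟩ := h4 v
    exact Finset.mem_sup.mpr ⟨S, hS, hvS⟩
  · intro h
    have := (h2 _ h).1
    simp at this
  · exact h1
  · intro S hS
    obtain ⟨c, φ, hφ1, hφ2, hφ3⟩ := (h2 S hS).2
    refine ⟨c, φ, hφ1, ?_, fun a b hab => hG _ _ _ (hφ3 a b hab)⟩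
    have hsub : Finset.univ.image φ ⊆ S := by
      intro v hv
      obtain ⟨a, _, rfl⟩ := Finset.mem_image.mp hv
      exact hφ2 a
    have heq : Finset.univ.image φ = S := by
      refine Finset.eq_of_subset_of_card_le hsub ?_
      rw [Finset.card_image_of_injective _ hφ1, Finset.card_univ, Fintype.card_fin]
    rw [← Set.image_univ, ← Finset.coe_univ, ← Finset.coe_image, heq]

theorem result (K : ℕ) (hK : 1 ≤ K) :
    (∃ C : ℕ, ∀ Δ : ℕ, 2 ≤ Δ →
      ∀ F : (r : ℕ) → SimpleGraph (Fin r), (∀ r v, ((F r).neighborSet v).ncard ≤ Δ) →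
        ∀ (N : ℕ) (χ : Sym2 (Fin N) → Fin K),
          ∃ P : Finpartition (Finset.univ : Finset (Fin N)),
            P.parts.card ≤ 2 ^ (C * (Δ ^ 2 * Nat.log 2 Δ ^ 2)) ∧
              ∀ S ∈ P.parts, ∃ (j : Fin K) (φ : Fin S.card → Fin N),
                Function.Injective φ ∧ Set.range φ = ↑S ∧
                  ∀ a b, (F S.card).Adj a b → χ s(φ a, φ b) = j) ∧
    (∃ C : ℕ, ∀ Δ : ℕ, 2 ≤ Δ → ∀ k : ℕ,
      ∀ F : (r : ℕ) → SimpleGraph (Fin r), (∀ r v, ((F r).neighborSet v).ncard ≤ Δ) →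
        (∀ r, (F r).Colorable k) →
        ∀ (N : ℕ) (χ : Sym2 (Fin N) → Fin K),
          ∃ P : Finpartition (Finset.univ : Finset (Fin N)),
            P.parts.card ≤ 2 ^ (C * (k * Δ + k ^ 2 * (Nat.log 2 k + 1) ^ 2)) ∧
              ∀ S ∈ P.parts, ∃ (j : Fin K) (φ : Fin S.card → Fin N),
                Function.Injective φ ∧ Set.range φ = ↑S ∧
                  ∀ a b, (F S.card).Adj a b → χ s(φ a, φ b) = j) ∧
    (∀ A : ℕ, ∃ C : ℕ, ∀ Δ : ℕ, 2 ≤ Δ →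
      ∀ F : (r : ℕ) → SimpleGraph (Fin r), (∀ r v, ((F r).neighborSet v).ncard ≤ Δ) →
        (∀ r, (F r).Colorable (A * Nat.log 2 Δ)) →
        ∀ (N : ℕ) (χ : Sym2 (Fin N) → Fin K),
          ∃ P : Finpartition (Finset.univ : Finset (Fin N)),
            P.parts.card ≤ 2 ^ (C * (Δ * Nat.log 2 Δ)) ∧
              ∀ S ∈ P.parts, ∃ (j : Fin K) (φ : Fin S.card → Fin N),
                Function.Injective φ ∧ Set.range φ = ↑S ∧
                  ∀ a b, (F S.card).Adj a b → χ s(φ a, φ b) = j) := by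
  obtain ⟨C, hC⟩ := Run7.h755.px_ptot K
  have hpos : ∀ (k : ℕ) (F : (r : ℕ) → SimpleGraph (Fin r)), (∀ r, (F r).Colorable k) →
      1 ≤ k ∧ ∀ r, ∃ col : Fin r → Fin k, ∀ x y, (F r).Adj x y → col x ≠ col y := by
    intro k F h
    refine ⟨?_, fun r => ?_⟩
    · obtain ⟨c⟩ := h 1
      exact lt_of_le_of_lt (Nat.zero_le _) (c 0).2
    · obtain ⟨c⟩ := h r
      exact ⟨c, fun x y hxy => c.valid hxy⟩
  refine ⟨⟨C * 38, fun Δ hΔ F hF N χ => ?_⟩, ⟨C, fun Δ hΔ k F hF hk N χ => ?_⟩,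
    fun A => ⟨C * (A + 27 * A ^ 4), fun Δ hΔ F hF hk N χ => ?_⟩⟩
  · have hcol : ∀ r, ∃ col : Fin r → Fin (Δ + 1), ∀ x y, (F r).Adj x y → col x ≠ col y := by
      classical
      refine Run7.h755.greedy_col Δ ?_
      intro r x
      have h1 := hF r x
      have h2 : (F r).neighborSet x = ↑(Finset.univ.filter (fun z => (F r).Adj x z)) := by
        ext z; simp
      rwa [h2, Set.ncard_coe_finset] at h1
    obtain ⟨P, h1, h2⟩ := main K hK Δ hΔ (Δ + 1) (by omega) F hF hcol N χ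
    refine ⟨P, h1.trans ((hC Δ (Δ + 1) hΔ (by omega)).trans ?_), h2⟩
    apply Nat.pow_le_pow_right (by norm_num)
    rw [mul_assoc]
    exact Nat.mul_le_mul_left _ (Run7.h755.pS_gen hΔ)
  · obtain ⟨hk1, hcol⟩ := hpos k F hk
    obtain ⟨P, h1, h2⟩ := main K hK Δ hΔ k hk1 F hF hcol N χ
    exact ⟨P, h1.trans (hC Δ k hΔ hk1), h2⟩
  · obtain ⟨hk1, hcol⟩ := hpos _ F hk
    obtain ⟨P, h1, h2⟩ := main K hK Δ hΔ _ hk1 F hF hcol N χ
    refine ⟨P, h1.trans ((hC Δ _ hΔ hk1).trans ?_), h2⟩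
    apply Nat.pow_le_pow_right (by norm_num)
    rw [mul_assoc]
    exact Nat.mul_le_mul_left _ (Run7.h755.pS_log A hΔ)

end Pool.Agent.Results.MP_53afc0_co.ChromaticBound
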